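import Pool.Agent.X23.FR.Gen

/-!
# The example: sums of constraints of two polygons
-/

set_option autoImplicit false

namespace Pool.Agent.X23.FR

noncomputable section

/-- a sign -/
def sg (s : Bool) : ℝ := if s then 1 else -1

theorem sg_cases (s : Bool) : sg s = 1 ∨ sg s = -1 := by
  cases s
  · right; rfl
  · left; rfl

theorem sg_mul_self (s : Bool) : sg s * sg s = 1 := by
  rcases sg_cases s with h | h <;> rw [h] <;> norm_num

theorem sg_not (s : Bool) : sg (!s) = -sg s := by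
  cases s
  · change (1 : ℝ) = - -1
    norm_num
  · rfl

theorem sg_ne {s t : Bool} (h : s ≠ t) : sg s * sg t = -1 := by
  cases s <;> cases t
  · exact absurd rfl h
  · change (-1 : ℝ) * 1 = -1
    norm_num
  · change (1 : ℝ) * (-1) = -1
    norm_num
  · exact absurd rfl h

/-- vectors of `ℝ^(4+e)` -/
def av (e : ℕ) (p0 p1 q0 q1 : ℝ) (w : Fin e → ℝ) : Fin (4 + e) → ℝ :=
  Fin.append ![p0, p1, q0, q1] w

theorem av_dot (e : ℕ) (p0 p1 q0 q1 : ℝ) (w : Fin e → ℝ) (x : Fin (4 + e) → ℝ) :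
    av e p0 p1 q0 q1 w ⬝ᵥ x = p0 * x (Fin.castAdd e 0) + p1 * x (Fin.castAdd e 1) +
      q0 * x (Fin.castAdd e 2) + q1 * x (Fin.castAdd e 3) + w ⬝ᵥ fun j => x (Fin.natAdd 4 j) := by
  unfold dotProduct av
  rw [Fin.sum_univ_add]
  simp only [Fin.append_left, Fin.append_right]
  rw [Fin.sum_univ_four]
  rfl

theorem av0 (e : ℕ) (p0 p1 q0 q1 : ℝ) (w : Fin e → ℝ) :
    av e p0 p1 q0 q1 w (Fin.castAdd e 0) = p0 := by
  unfold av; rw [Fin.append_left]; rfl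

theorem av1 (e : ℕ) (p0 p1 q0 q1 : ℝ) (w : Fin e → ℝ) :
    av e p0 p1 q0 q1 w (Fin.castAdd e 1) = p1 := by
  unfold av; rw [Fin.append_left]; rfl

theorem av2 (e : ℕ) (p0 p1 q0 q1 : ℝ) (w : Fin e → ℝ) :
    av e p0 p1 q0 q1 w (Fin.castAdd e 2) = q0 := by
  unfold av; rw [Fin.append_left]; rfl

theorem av3 (e : ℕ) (p0 p1 q0 q1 : ℝ) (w : Fin e → ℝ) :
    av e p0 p1 q0 q1 w (Fin.castAdd e 3) = q1 := by
  unfold av; rw [Fin.append_left]; rfl

theorem av4 (e : ℕ) (p0 p1 q0 q1 : ℝ) (w : Fin e → ℝ) (j : Fin e) :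
    av e p0 p1 q0 q1 w (Fin.natAdd 4 j) = w j := by
  unfold av; rw [Fin.append_right]

/-- index set of the constraints -/
abbrev Idx (e N : ℕ) :=
  (Bool × Bool × Fin (N + 1)) ⊕ ((Bool × Bool × Fin N × Fin N) ⊕ (Bool × Fin e))

/-- constraint vectors -/
def ca (e N : ℕ) : Idx e N → Fin (4 + e) → ℝ
  | .inl (true, s, k) => av e (sg s * (2 * (k : ℕ))) (sg s) 0 0 0
  | .inl (false, s, k) => av e 0 0 (sg s * (2 * (k : ℕ))) (sg s) 0
  | .inr (.inl (s, t, i, j)) =>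
      av e (sg s * (4 * (i : ℕ) + 2)) (sg s * 2) (sg t * (4 * (j : ℕ) + 2)) (sg t * 2) 0
  | .inr (.inr (s, l)) => av e 0 0 0 0 (Pi.single l (sg s))

/-- the constant `M` -/
def cM (N : ℕ) : ℝ := ((N : ℝ) + 1) ^ 2

/-- the constants `β` -/
def bt (N i : ℕ) : ℝ := 2 * cM N + (i : ℝ) ^ 2 + ((i : ℝ) + 1) ^ 2

/-- right-hand sides -/
def cb (e N : ℕ) : Idx e N → ℝ
  | .inl (_, _, k) => cM N + ((k : ℕ) : ℝ) ^ 2
  | .inr (.inl (_, _, i, j)) => bt N i + bt N j - 1 / 2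
  | .inr (.inr _) => 1

theorem d1 (e N : ℕ) (s : Bool) (k : Fin (N + 1)) (x : Fin (4 + e) → ℝ) :
    ca e N (.inl (true, s, k)) ⬝ᵥ x =
      sg s * (2 * (k : ℕ) * x (Fin.castAdd e 0) + x (Fin.castAdd e 1)) := by
  change av e (sg s * (2 * (k : ℕ))) (sg s) 0 0 0 ⬝ᵥ x = _
  rw [av_dot, zero_dotProduct]
  ring

theorem d2 (e N : ℕ) (s : Bool) (k : Fin (N + 1)) (x : Fin (4 + e) → ℝ) :
    ca e N (.inl (false, s, k)) ⬝ᵥ x =
      sg s * (2 * (k : ℕ) * x (Fin.castAdd e 2) + x (Fin.castAdd e 3)) := by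
  change av e 0 0 (sg s * (2 * (k : ℕ))) (sg s) 0 ⬝ᵥ x = _
  rw [av_dot, zero_dotProduct]
  ring

theorem d3 (e N : ℕ) (s t : Bool) (i j : Fin N) (x : Fin (4 + e) → ℝ) :
    ca e N (.inr (.inl (s, t, i, j))) ⬝ᵥ x =
      sg s * ((4 * (i : ℕ) + 2) * x (Fin.castAdd e 0) + 2 * x (Fin.castAdd e 1)) +
      sg t * ((4 * (j : ℕ) + 2) * x (Fin.castAdd e 2) + 2 * x (Fin.castAdd e 3)) := by
  change av e (sg s * (4 * (i : ℕ) + 2)) (sg s * 2) (sg t * (4 * (j : ℕ) + 2)) (sg t * 2) 0 ⬝ᵥ x = _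
  rw [av_dot, zero_dotProduct]
  ring

theorem d4 (e N : ℕ) (s : Bool) (l : Fin e) (x : Fin (4 + e) → ℝ) :
    ca e N (.inr (.inr (s, l))) ⬝ᵥ x = sg s * x (Fin.natAdd 4 l) := by
  change av e 0 0 0 0 (Pi.single l (sg s)) ⬝ᵥ x = _
  rw [av_dot, single_dotProduct]
  ring

/-- the polytope -/
def cP (e N : ℕ) : Set (Fin (4 + e) → ℝ) := {x | ∀ i, ca e N i ⬝ᵥ x ≤ cb e N i}

theorem cM_pos (N : ℕ) : 1 ≤ cM N := by
  unfold cM
  have : (0 : ℝ) ≤ N := Nat.cast_nonneg N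
  nlinarith

theorem bt_ge (N i : ℕ) : 1 ≤ bt N i := by
  unfold bt
  have := cM_pos N
  nlinarith [sq_nonneg (i : ℝ), sq_nonneg ((i : ℝ) + 1)]

theorem cb_pos (e N : ℕ) (i : Idx e N) : 0 < cb e N i := by
  rcases i with ⟨f, s, k⟩ | ⟨s, t, i, j⟩ | ⟨s, l⟩
  · change 0 < cM N + ((k : ℕ) : ℝ) ^ 2
    have := cM_pos N
    positivity
  · change 0 < bt N i + bt N j - 1 / 2
    have h1 := bt_ge N i
    have h2 := bt_ge N j
    linarith
  · exact one_pos

theorem zero_int (e N : ℕ) : (interior (cP e N)).Nonempty := by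
  refine ⟨0, interior_of fun i => ?_⟩
  rw [dotProduct_zero]
  exact cb_pos e N i

theorem cP_sym (e N : ℕ) : ∀ x ∈ cP e N, -x ∈ cP e N := by
  intro x hx i
  rcases i with ⟨f, s, k⟩ | ⟨s, t, i, j⟩ | ⟨s, l⟩
  · cases f
    · have h := hx (.inl (false, !s, k))
      rw [d2, sg_not] at h
      rw [d2]
      have e1 : cb e N (.inl (false, !s, k)) = cb e N (.inl (false, s, k)) := rfl
      rw [e1] at h
      refine le_trans (le_of_eq ?_) h
      simp only [Pi.neg_apply]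
      ring
    · have h := hx (.inl (true, !s, k))
      rw [d1, sg_not] at h
      rw [d1]
      have e1 : cb e N (.inl (true, !s, k)) = cb e N (.inl (true, s, k)) := rfl
      rw [e1] at h
      refine le_trans (le_of_eq ?_) h
      simp only [Pi.neg_apply]
      ring
  · have h := hx (.inr (.inl (!s, !t, i, j)))
    rw [d3, sg_not, sg_not] at h
    rw [d3]
    have e1 : cb e N (.inr (.inl (!s, !t, i, j))) = cb e N (.inr (.inl (s, t, i, j))) := rfl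
    rw [e1] at h
    refine le_trans (le_of_eq ?_) h
    simp only [Pi.neg_apply]
    ring
  · have h := hx (.inr (.inr (!s, l)))
    rw [d4, sg_not] at h
    rw [d4]
    have e1 : cb e N (.inr (.inr (!s, l))) = cb e N (.inr (.inr (s, l))) := rfl
    rw [e1] at h
    refine le_trans (le_of_eq ?_) h
    simp only [Pi.neg_apply]
    ring

theorem cP_bdd (e N : ℕ) (hN : 1 ≤ N) : Bornology.IsBounded (cP e N) := by
  refine (Metric.isBounded_closedBall (x := (0 : Fin (4 + e) → ℝ)) (r := cM N + 1)).subset ?_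
  intro x hx
  have hM := cM_pos N
  rw [mem_closedBall_zero_iff, pi_norm_le_iff_of_nonneg (by linarith)]
  have k1 : ((⟨1, by omega⟩ : Fin (N + 1)) : ℕ) = 1 := rfl
  have two : ∀ u v : ℝ, (∀ s : Bool, sg s * (2 * ((0 : Fin (N + 1)) : ℕ) * u + v) ≤
      cM N + (((0 : Fin (N + 1)) : ℕ) : ℝ) ^ 2) →
      (∀ s : Bool, sg s * (2 * ((⟨1, by omega⟩ : Fin (N + 1)) : ℕ) * u + v) ≤
        cM N + (((⟨1, by omega⟩ : Fin (N + 1)) : ℕ) : ℝ) ^ 2) →
      |u| ≤ cM N + 1 ∧ |v| ≤ cM N + 1 := by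
    intro u v h1 h2
    have a1 := h1 true
    have a2 := h1 false
    have a3 := h2 true
    have a4 := h2 false
    rw [k1] at a3 a4
    simp only [sg, Fin.val_zero, Nat.cast_zero, Nat.cast_one, if_true, if_false,
      Bool.false_eq_true] at a1 a2 a3 a4
    constructor
    · rw [abs_le]
      constructor <;> linarith
    · rw [abs_le]
      constructor <;> linarith
  have p1 := two (x (Fin.castAdd e 0)) (x (Fin.castAdd e 1))
    (fun s => by have := hx (.inl (true, s, 0)); rwa [d1] at this)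
    (fun s => by have := hx (.inl (true, s, ⟨1, by omega⟩)); rwa [d1] at this)
  have p2 := two (x (Fin.castAdd e 2)) (x (Fin.castAdd e 3))
    (fun s => by have := hx (.inl (false, s, 0)); rwa [d2] at this)
    (fun s => by have := hx (.inl (false, s, ⟨1, by omega⟩)); rwa [d2] at this)
  intro i
  rw [Real.norm_eq_abs]
  refine Fin.addCases (fun i => ?_) (fun l => ?_) i
  · fin_cases i
    · exact p1.1
    · exact p1.2
    · exact p2.1
    · exact p2.2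
  · have a1 := hx (.inr (.inr (true, l)))
    have a2 := hx (.inr (.inr (false, l)))
    rw [d4] at a1 a2
    have e1 : ∀ s, cb e N (.inr (.inr (s, l))) = 1 := fun _ => rfl
    rw [e1] at a1 a2
    simp only [sg, if_true, if_false, Bool.false_eq_true] at a1 a2
    rw [abs_le]
    constructor <;> linarith

theorem lemA {c σ G B : ℝ} (hc : 0 < c) (hc1 : c < 1) (hσ : σ = 1 ∨ σ = -1) (hG : 0 < G)
    (hB : G ≤ B) : c * σ * G < B := by
  rcases hσ with h | h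
  · rw [h]
    nlinarith
  · rw [h]
    nlinarith [mul_pos hc hG]

theorem lemB {c σ τ H1 H2 B1 B2 : ℝ} (hc : 0 < c) (hc1 : c < 1) (hσ : σ = 1 ∨ σ = -1)
    (hτ : τ = 1 ∨ τ = -1) (h1 : 0 < H1) (h1' : H1 ≤ B1) (h2 : 0 < H2) (h2' : H2 ≤ B2)
    (hB1 : 1 ≤ B1) (hB2 : 1 ≤ B2) (h : σ = -1 ∨ τ = -1 ∨ H1 ≤ B1 - 2 ∨ H2 ≤ B2 - 2) :
    c * σ * H1 + c * τ * H2 < B1 + B2 - 1 / 2 := by
  have a1 := lemA hc hc1 hσ h1 le_rfl
  have a2 := lemA hc hc1 hτ h2 le_rfl
  rcases h with h | h | h | h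
  · have : c * σ * H1 < 0 := by
      rw [h]
      nlinarith [mul_pos hc h1]
    linarith
  · have : c * τ * H2 < 0 := by
      rw [h]
      nlinarith [mul_pos hc h2]
    linarith
  · linarith
  · linarith

theorem M_gt {N i : ℕ} (hi : i < N) : (i : ℝ) ^ 2 + i < cM N := by
  unfold cM
  have h1 : (i : ℝ) + 1 ≤ N := by exact_mod_cast hi
  have h2 : (0 : ℝ) ≤ i := Nat.cast_nonneg i
  nlinarith

theorem G_pos {N i : ℕ} (hi : i < N) (k : ℕ) :
    0 < (k : ℝ) * (2 * i + 1) + (cM N - (i : ℝ) ^ 2 - i) := by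
  have h1 := M_gt hi
  have h2 : (0 : ℝ) ≤ i := Nat.cast_nonneg i
  have h3 : (0 : ℝ) ≤ k := Nat.cast_nonneg k
  have h4 : 0 ≤ (k : ℝ) * (2 * i + 1) := by positivity
  linarith

theorem G_le (N i k : ℕ) :
    (k : ℝ) * (2 * i + 1) + (cM N - (i : ℝ) ^ 2 - i) ≤ cM N + (k : ℝ) ^ 2 := by
  have h : 0 ≤ ((k : ℝ) - i) * (k - i - 1) := by
    rcases Nat.lt_or_ge i k with h | h
    · have h1 : (i : ℝ) + 1 ≤ k := by exact_mod_cast h
      exact mul_nonneg (by linarith) (by linarith)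
    · have h1 : (k : ℝ) ≤ i := by exact_mod_cast h
      exact mul_nonneg_of_nonpos_of_nonpos (by linarith) (by linarith)
  nlinarith

theorem H_pos {N i : ℕ} (hi : i < N) (k : ℕ) :
    0 < (2 * (k : ℝ) + 1) * (2 * i + 1) + 2 * (cM N - (i : ℝ) ^ 2 - i) := by
  have h1 := M_gt hi
  have h2 : (0 : ℝ) ≤ i := Nat.cast_nonneg i
  have h3 : (0 : ℝ) ≤ k := Nat.cast_nonneg k
  have h4 : 0 ≤ (2 * (k : ℝ) + 1) * (2 * i + 1) := by positivity
  linarith

theorem H_eq (N i k : ℕ) :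
    (2 * (k : ℝ) + 1) * (2 * i + 1) + 2 * (cM N - (i : ℝ) ^ 2 - i) =
      bt N k - 2 * ((k : ℝ) - i) ^ 2 := by
  unfold bt
  ring

theorem H_le (N i k : ℕ) :
    (2 * (k : ℝ) + 1) * (2 * i + 1) + 2 * (cM N - (i : ℝ) ^ 2 - i) ≤ bt N k := by
  rw [H_eq]
  nlinarith [sq_nonneg ((k : ℝ) - i)]

theorem H_le' (N : ℕ) {i k : ℕ} (h : k ≠ i) :
    (2 * (k : ℝ) + 1) * (2 * i + 1) + 2 * (cM N - (i : ℝ) ^ 2 - i) ≤ bt N k - 2 := by
  rw [H_eq]
  have h1 : 1 ≤ ((k : ℝ) - i) ^ 2 := by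
    rcases lt_or_gt_of_ne h with h | h
    · have h1 : (k : ℝ) + 1 ≤ i := by exact_mod_cast h
      nlinarith
    · have h1 : (i : ℝ) + 1 ≤ k := by exact_mod_cast h
      nlinarith
  linarith

theorem facet_two (e N : ℕ) (s t : Bool) (i j : Fin N) :
    IsFacet (4 + e) (cP e N)
      {x | x ∈ cP e N ∧ ca e N (.inr (.inl (s, t, i, j))) ⬝ᵥ x = cb e N (.inr (.inl (s, t, i, j)))} := by
  have hb1 := bt_ge N i
  have hb2 := bt_ge N j
  set c : ℝ := 1 - (1 / 2) / (bt N i + bt N j) with hc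
  have hbb : 0 < bt N i + bt N j := by linarith
  have hcb : c * (bt N i + bt N j) = bt N i + bt N j - 1 / 2 := by
    rw [hc]
    field_simp
  have hc1 : c < 1 := by
    rw [hc]
    have : 0 < (1 / 2) / (bt N i + bt N j) := by positivity
    linarith
  have hc0 : 0 < c := by
    by_contra h
    push Not at h
    nlinarith
  have hss := sg_mul_self s
  have htt := sg_mul_self t
  set z : Fin (4 + e) → ℝ := av e (c * sg s * ((2 * (i : ℕ) + 1) / 2))
    (c * sg s * (cM N - ((i : ℕ) : ℝ) ^ 2 - (i : ℕ))) (c * sg t * ((2 * (j : ℕ) + 1) / 2))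
    (c * sg t * (cM N - ((j : ℕ) : ℝ) ^ 2 - (j : ℕ))) 0 with hz
  have hz0 : z (Fin.castAdd e 0) = c * sg s * ((2 * (i : ℕ) + 1) / 2) := av0 _ _ _ _ _ _
  have hz1 : z (Fin.castAdd e 1) = c * sg s * (cM N - ((i : ℕ) : ℝ) ^ 2 - (i : ℕ)) :=
    av1 _ _ _ _ _ _
  have hz2 : z (Fin.castAdd e 2) = c * sg t * ((2 * (j : ℕ) + 1) / 2) := av2 _ _ _ _ _ _
  have hz3 : z (Fin.castAdd e 3) = c * sg t * (cM N - ((j : ℕ) : ℝ) ^ 2 - (j : ℕ)) :=
    av3 _ _ _ _ _ _
  have hz4 : ∀ l, z (Fin.natAdd 4 l) = 0 := fun l => by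
    rw [hz, av4]
    rfl
  have hzdot : ca e N (.inr (.inl (s, t, i, j))) ⬝ᵥ z = cb e N (.inr (.inl (s, t, i, j))) := by
    rw [d3, hz0, hz1, hz2, hz3]
    change _ = bt N i + bt N j - 1 / 2
    rw [← hcb]
    have e1 : bt N i = (2 * ((i : ℕ) : ℝ) + 1) * (2 * (i : ℕ) + 1) +
        2 * (cM N - ((i : ℕ) : ℝ) ^ 2 - (i : ℕ)) := by
      rw [H_eq]; ring
    have e2 : bt N j = (2 * ((j : ℕ) : ℝ) + 1) * (2 * (j : ℕ) + 1) +
        2 * (cM N - ((j : ℕ) : ℝ) ^ 2 - (j : ℕ)) := by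
      rw [H_eq]; ring
    rw [e1, e2]
    linear_combination
      (c * ((2 * ((i : ℕ) : ℝ) + 1) * (2 * (i : ℕ) + 1) +
        2 * (cM N - ((i : ℕ) : ℝ) ^ 2 - (i : ℕ)))) * hss +
      (c * ((2 * ((j : ℕ) : ℝ) + 1) * (2 * (j : ℕ) + 1) +
        2 * (cM N - ((j : ℕ) : ℝ) ^ 2 - (j : ℕ)))) * htt
  have hsgp : ∀ a b : Bool, sg a * sg b = 1 ∨ sg a * sg b = -1 := by
    intro a b
    rcases sg_cases a with h | h <;> rcases sg_cases b with h' | h' <;> rw [h, h'] <;> norm_num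
  refine facet_of (z := z) rfl ?_ hzdot ?_
  · intro h0
    rw [h0, zero_dotProduct] at hzdot
    have := cb_pos e N (.inr (.inl (s, t, i, j)))
    linarith
  · intro idx hne
    rcases idx with ⟨f, s', k⟩ | ⟨s', t', i', j'⟩ | ⟨s', l⟩
    · cases f
      · rw [d2, hz2, hz3]
        change _ < cM N + ((k : ℕ) : ℝ) ^ 2
        have := lemA hc0 hc1 (hsgp s' t) (G_pos j.2 (k : ℕ)) (G_le N j k)
        refine lt_of_eq_of_lt ?_ this
        ring
      · rw [d1, hz0, hz1]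
        change _ < cM N + ((k : ℕ) : ℝ) ^ 2
        have := lemA hc0 hc1 (hsgp s' s) (G_pos i.2 (k : ℕ)) (G_le N i k)
        refine lt_of_eq_of_lt ?_ this
        ring
    · rw [d3, hz0, hz1, hz2, hz3]
      change _ < bt N i' + bt N j' - 1 / 2
      have hor : sg s' * sg s = -1 ∨ sg t' * sg t = -1 ∨
          (2 * ((i' : ℕ) : ℝ) + 1) * (2 * (i : ℕ) + 1) +
            2 * (cM N - ((i : ℕ) : ℝ) ^ 2 - (i : ℕ)) ≤ bt N i' - 2 ∨
          (2 * ((j' : ℕ) : ℝ) + 1) * (2 * (j : ℕ) + 1) +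
            2 * (cM N - ((j : ℕ) : ℝ) ^ 2 - (j : ℕ)) ≤ bt N j' - 2 := by
        by_cases h1 : s' = s
        · by_cases h2 : t' = t
          · by_cases h3 : i' = i
            · by_cases h4 : j' = j
              · exact absurd (by rw [h1, h2, h3, h4]) hne
              · right; right; right
                exact H_le' N fun h => h4 (Fin.ext h)
            · right; right; left
              exact H_le' N fun h => h3 (Fin.ext h)
          · right; left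
            exact sg_ne h2
        · left
          exact sg_ne h1
      have := lemB hc0 hc1 (hsgp s' s) (hsgp t' t) (H_pos i.2 (i' : ℕ)) (H_le N i i')
        (H_pos j.2 (j' : ℕ)) (H_le N j j') (bt_ge N i') (bt_ge N j') hor
      refine lt_of_eq_of_lt ?_ this
      ring
    · rw [d4, hz4, mul_zero]
      exact one_pos

theorem facet_coord (e N : ℕ) (s t : Bool) (i j : Fin N) (x : Fin (4 + e) → ℝ)
    (hx : x ∈ cP e N)
    (hx2 : ca e N (.inr (.inl (s, t, i, j))) ⬝ᵥ x = cb e N (.inr (.inl (s, t, i, j)))) :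
    (2 * ((i : ℕ) : ℝ) + 1 / 2 ≤ sg s * (2 * x (Fin.castAdd e 0)) ∧
      sg s * (2 * x (Fin.castAdd e 0)) ≤ 2 * ((i : ℕ) : ℝ) + 3 / 2) ∧
    (2 * ((j : ℕ) : ℝ) + 1 / 2 ≤ sg t * (2 * x (Fin.castAdd e 2)) ∧
      sg t * (2 * x (Fin.castAdd e 2)) ≤ 2 * ((j : ℕ) : ℝ) + 3 / 2) := by
  have a1 := hx (.inl (true, s, i.castSucc))
  have a2 := hx (.inl (true, s, i.succ))
  have a3 := hx (.inl (false, t, j.castSucc))
  have a4 := hx (.inl (false, t, j.succ))
  rw [d1] at a1 a2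
  rw [d2] at a3 a4
  rw [d3] at hx2
  change _ ≤ cM N + (((i.castSucc : Fin (N + 1)) : ℕ) : ℝ) ^ 2 at a1
  change _ ≤ cM N + (((i.succ : Fin (N + 1)) : ℕ) : ℝ) ^ 2 at a2
  change _ ≤ cM N + (((j.castSucc : Fin (N + 1)) : ℕ) : ℝ) ^ 2 at a3
  change _ ≤ cM N + (((j.succ : Fin (N + 1)) : ℕ) : ℝ) ^ 2 at a4
  change _ = bt N i + bt N j - 1 / 2 at hx2
  rw [Fin.val_castSucc] at a1 a3
  rw [Fin.val_succ] at a2 a4
  push_cast at a2 a4
  unfold bt at hx2
  refine ⟨⟨?_, ?_⟩, ?_, ?_⟩ <;> nlinarith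

theorem coord_inj {s s' : Bool} {i i' : ℕ} {u : ℝ}
    (h1 : 2 * (i : ℝ) + 1 / 2 ≤ sg s * u) (h2 : sg s * u ≤ 2 * (i : ℝ) + 3 / 2)
    (h3 : 2 * (i' : ℝ) + 1 / 2 ≤ sg s' * u) (h4 : sg s' * u ≤ 2 * (i' : ℝ) + 3 / 2) :
    s = s' ∧ i = i' := by
  have p1 : (0 : ℝ) ≤ i := Nat.cast_nonneg i
  have p2 : (0 : ℝ) ≤ i' := Nat.cast_nonneg i'
  have hs : s = s' := by
    by_contra hne
    cases s <;> cases s'
    · exact hne rfl
    · change _ ≤ (-1 : ℝ) * u at h1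
      change _ ≤ (1 : ℝ) * u at h3
      linarith
    · change _ ≤ (1 : ℝ) * u at h1
      change _ ≤ (-1 : ℝ) * u at h3
      linarith
    · exact hne rfl
  refine ⟨hs, ?_⟩
  subst hs
  rcases lt_trichotomy i i' with h | h | h
  · exfalso
    have : (i : ℝ) + 1 ≤ i' := by exact_mod_cast h
    linarith
  · exact h
  · exfalso
    have : (i' : ℝ) + 1 ≤ i := by exact_mod_cast h
    linarith

theorem rep_ge (e N : ℕ) : 4 * N ^ 2 ≤ repNum (4 + e) (cP e N) := by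
  have h := le_repNum (d := 4 + e) (P := cP e N) (by omega) (zero_int e N)
    (facets_finite (a := ca e N) (b := cb e N) (by omega) rfl (zero_int e N))
    (κ := Bool × Bool × Fin N × Fin N)
    (fun p => {x | x ∈ cP e N ∧ ca e N (.inr (.inl p)) ⬝ᵥ x = cb e N (.inr (.inl p))})
    (fun p => by
      obtain ⟨s, t, i, j⟩ := p
      exact facet_two e N s t i j)
    (by
      rintro ⟨s, t, i, j⟩ ⟨s', t', i', j'⟩ x ⟨hx, h1⟩ ⟨-, h2⟩
      have c1 := facet_coord e N s t i j x hx h1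
      have c2 := facet_coord e N s' t' i' j' x hx h2
      obtain ⟨q1, q2⟩ := coord_inj c1.1.1 c1.1.2 c2.1.1 c2.1.2
      obtain ⟨q3, q4⟩ := coord_inj c1.2.1 c1.2.2 c2.2.1 c2.2.2
      rw [q1, q3, Fin.ext q2, Fin.ext q4])
  refine le_trans (le_of_eq ?_) h
  simp only [Fintype.card_prod, Fintype.card_bool, Fintype.card_fin]
  ring

theorem num_le (e N : ℕ) : facetNum (4 + e) (cP e N) ≤ 4 * N ^ 2 + 4 * N + 4 + 2 * e := by
  have h := facetNum_le (d := 4 + e) (P := cP e N) (a := ca e N) (b := cb e N) (by omega) rfl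
    (zero_int e N)
  refine h.trans (le_of_eq ?_)
  simp only [Fintype.card_sum, Fintype.card_prod, Fintype.card_bool, Fintype.card_fin]
  ring

theorem L_eq_one (e : ℕ) : L (4 + e) = 1 := by
  have hd : 2 ≤ 4 + e := by omega
  have hub : ∀ r ∈ {r | ∃ P, IsPoly (4 + e) P ∧
      r = (repNum (4 + e) P : ℝ) / facetNum (4 + e) P}, r ≤ 1 := by
    rintro r ⟨P, hP, rfl⟩
    apply div_le_one_of_le₀ _ (Nat.cast_nonneg _)
    exact_mod_cast repNum_le hd hP.2.2.1 (isPoly_finite hd hP)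
  have hpoly : ∀ N : ℕ, 1 ≤ N → IsPoly (4 + e) (cP e N) := fun N hN =>
    isPoly_of (a := ca e N) (b := cb e N) rfl (cP_bdd e N hN) (zero_int e N) (cP_sym e N)
  have hmem : ∀ N : ℕ, 1 ≤ N → (repNum (4 + e) (cP e N) : ℝ) / facetNum (4 + e) (cP e N) ∈
      {r | ∃ P, IsPoly (4 + e) P ∧ r = (repNum (4 + e) P : ℝ) / facetNum (4 + e) P} :=
    fun N hN => ⟨_, hpoly N hN, rfl⟩
  apply le_antisymm
  · exact csSup_le ⟨_, hmem 1 le_rfl⟩ hub
  · by_contra hlt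
    push Not at hlt
    set δ := 1 - L (4 + e) with hδ
    have hδ0 : 0 < δ := by linarith
    obtain ⟨n, hn⟩ := exists_nat_gt ((8 + 2 * (e : ℝ)) / (4 * δ))
    set N := n + 1 with hN
    have hNr : (8 + 2 * (e : ℝ)) < 4 * δ * N := by
      rw [div_lt_iff₀ (by positivity)] at hn
      have : (n : ℝ) < N := by
        rw [hN]
        push_cast
        linarith
      nlinarith
    have h1 : (repNum (4 + e) (cP e N) : ℝ) / facetNum (4 + e) (cP e N) ≤ L (4 + e) :=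
      le_csSup ⟨1, hub⟩ (hmem N (by omega))
    have h2 : (4 * (N : ℝ) ^ 2) ≤ repNum (4 + e) (cP e N) := by
      exact_mod_cast rep_ge e N
    have h3 : (facetNum (4 + e) (cP e N) : ℝ) ≤ 4 * (N : ℝ) ^ 2 + 4 * N + 4 + 2 * e := by
      exact_mod_cast num_le e N
    have h4 : (repNum (4 + e) (cP e N) : ℝ) ≤ facetNum (4 + e) (cP e N) := by
      exact_mod_cast repNum_le hd (hpoly N (by omega)).2.2.1 (isPoly_finite hd (hpoly N (by omega)))
    have hN1 : (1 : ℝ) ≤ N := by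
      rw [hN]
      push_cast
      have : (0 : ℝ) ≤ n := Nat.cast_nonneg n
      linarith
    have h5 : 0 < (facetNum (4 + e) (cP e N) : ℝ) := by nlinarith
    rw [div_le_iff₀ h5] at h1
    have h6 : (repNum (4 + e) (cP e N) : ℝ) ≤ (1 - δ) * facetNum (4 + e) (cP e N) := by
      have : 1 - δ = L (4 + e) := by rw [hδ]; ring
      rw [this]
      exact h1
    have h7 : δ * facetNum (4 + e) (cP e N) ≤ 4 * N + 4 + 2 * e := by nlinarith
    have h8 : 4 * (N : ℝ) ^ 2 ≤ facetNum (4 + e) (cP e N) := h2.trans h4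
    have h9 : δ * (4 * (N : ℝ) ^ 2) ≤ 4 * N + 4 + 2 * e :=
      (mul_le_mul_of_nonneg_left h8 hδ0.le).trans h7
    have he : (0 : ℝ) ≤ e := Nat.cast_nonneg e
    nlinarith [mul_nonneg he (by linarith : (0 : ℝ) ≤ N - 1)]

theorem main {d : ℕ} (hd : 4 ≤ d) : L d = 1 := by
  obtain ⟨e, rfl⟩ := Nat.exists_eq_add_of_le hd
  exact L_eq_one e

end

end Pool.Agent.X23.FR
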