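import Pool.Agent.X23.FR.Ex

/-!
# The three-dimensional example: truncated prisms
-/

set_option autoImplicit false

namespace Pool.Agent.X23.FR

noncomputable section

/-- vectors of `ℝ^3` -/
def bv (p0 p1 q : ℝ) : Fin 3 → ℝ := ![p0, p1, q]

theorem bv_dot (p0 p1 q : ℝ) (x : Fin 3 → ℝ) :
    bv p0 p1 q ⬝ᵥ x = p0 * x 0 + p1 * x 1 + q * x 2 := by
  unfold dotProduct bv
  rw [Fin.sum_univ_three]
  rfl

/-- index set of the constraints -/
abbrev Idx3 (N : ℕ) := (Bool × Fin (N + 1)) ⊕ ((Bool × Bool × Fin N) ⊕ Bool)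

/-- constraint vectors -/
def ca3 (N : ℕ) : Idx3 N → Fin 3 → ℝ
  | .inl (s, k) => bv (sg s * (2 * (k : ℕ))) (sg s) 0
  | .inr (.inl (s, t, i)) => bv (sg s * (4 * (i : ℕ) + 2)) (sg s * 2) (sg t)
  | .inr (.inr s) => bv 0 0 (sg s)

/-- right-hand sides -/
def cb3 (N : ℕ) : Idx3 N → ℝ
  | .inl (_, k) => cM N + ((k : ℕ) : ℝ) ^ 2
  | .inr (.inl (_, _, i)) => bt N i + 1 - 1 / 2
  | .inr (.inr _) => 1

theorem e1 (N : ℕ) (s : Bool) (k : Fin (N + 1)) (x : Fin 3 → ℝ) :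
    ca3 N (.inl (s, k)) ⬝ᵥ x = sg s * (2 * (k : ℕ) * x 0 + x 1) := by
  change bv (sg s * (2 * (k : ℕ))) (sg s) 0 ⬝ᵥ x = _
  rw [bv_dot]
  ring

theorem e3 (N : ℕ) (s t : Bool) (i : Fin N) (x : Fin 3 → ℝ) :
    ca3 N (.inr (.inl (s, t, i))) ⬝ᵥ x =
      sg s * ((4 * (i : ℕ) + 2) * x 0 + 2 * x 1) + sg t * x 2 := by
  change bv (sg s * (4 * (i : ℕ) + 2)) (sg s * 2) (sg t) ⬝ᵥ x = _
  rw [bv_dot]
  ring

theorem e4 (N : ℕ) (s : Bool) (x : Fin 3 → ℝ) :
    ca3 N (.inr (.inr s)) ⬝ᵥ x = sg s * x 2 := by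
  change bv 0 0 (sg s) ⬝ᵥ x = _
  rw [bv_dot]
  ring

/-- the polytope -/
def cP3 (N : ℕ) : Set (Fin 3 → ℝ) := {x | ∀ i, ca3 N i ⬝ᵥ x ≤ cb3 N i}

theorem cb3_pos (N : ℕ) (i : Idx3 N) : 0 < cb3 N i := by
  rcases i with ⟨s, k⟩ | ⟨s, t, i⟩ | s
  · change 0 < cM N + ((k : ℕ) : ℝ) ^ 2
    have := cM_pos N
    positivity
  · change 0 < bt N i + 1 - 1 / 2
    have h1 := bt_ge N i
    linarith
  · exact one_pos

theorem zero_int3 (N : ℕ) : (interior (cP3 N)).Nonempty := by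
  refine ⟨0, interior_of fun i => ?_⟩
  rw [dotProduct_zero]
  exact cb3_pos N i

theorem cP3_sym (N : ℕ) : ∀ x ∈ cP3 N, -x ∈ cP3 N := by
  intro x hx i
  rcases i with ⟨s, k⟩ | ⟨s, t, i⟩ | s
  · have h := hx (.inl (!s, k))
    rw [e1, sg_not] at h
    rw [e1]
    have e1 : cb3 N (.inl (!s, k)) = cb3 N (.inl (s, k)) := rfl
    rw [e1] at h
    refine le_trans (le_of_eq ?_) h
    simp only [Pi.neg_apply]
    ring
  · have h := hx (.inr (.inl (!s, !t, i)))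
    rw [e3, sg_not, sg_not] at h
    rw [e3]
    have e1 : cb3 N (.inr (.inl (!s, !t, i))) = cb3 N (.inr (.inl (s, t, i))) := rfl
    rw [e1] at h
    refine le_trans (le_of_eq ?_) h
    simp only [Pi.neg_apply]
    ring
  · have h := hx (.inr (.inr (!s)))
    rw [e4, sg_not] at h
    rw [e4]
    have e1 : cb3 N (.inr (.inr (!s))) = cb3 N (.inr (.inr s)) := rfl
    rw [e1] at h
    refine le_trans (le_of_eq ?_) h
    simp only [Pi.neg_apply]
    ring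

theorem cP3_bdd (N : ℕ) (hN : 1 ≤ N) : Bornology.IsBounded (cP3 N) := by
  refine (Metric.isBounded_closedBall (x := (0 : Fin 3 → ℝ)) (r := cM N + 1)).subset ?_
  intro x hx
  have hM := cM_pos N
  rw [mem_closedBall_zero_iff, pi_norm_le_iff_of_nonneg (by linarith)]
  have k1 : ((⟨1, by omega⟩ : Fin (N + 1)) : ℕ) = 1 := rfl
  have a1 := hx (.inl (true, 0))
  have a2 := hx (.inl (false, 0))
  have a3 := hx (.inl (true, ⟨1, by omega⟩))
  have a4 := hx (.inl (false, ⟨1, by omega⟩))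
  rw [e1] at a1 a2 a3 a4
  change _ ≤ cM N + (((0 : Fin (N + 1)) : ℕ) : ℝ) ^ 2 at a1
  change _ ≤ cM N + (((0 : Fin (N + 1)) : ℕ) : ℝ) ^ 2 at a2
  change _ ≤ cM N + (((⟨1, by omega⟩ : Fin (N + 1)) : ℕ) : ℝ) ^ 2 at a3
  change _ ≤ cM N + (((⟨1, by omega⟩ : Fin (N + 1)) : ℕ) : ℝ) ^ 2 at a4
  rw [k1] at a3 a4
  simp only [sg, Fin.val_zero, Nat.cast_zero, Nat.cast_one, if_true, if_false,
    Bool.false_eq_true] at a1 a2 a3 a4
  have b1 := hx (.inr (.inr true))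
  have b2 := hx (.inr (.inr false))
  rw [e4] at b1 b2
  have e1 : ∀ s, cb3 N (.inr (.inr s)) = 1 := fun _ => rfl
  rw [e1] at b1 b2
  simp only [sg, if_true, if_false, Bool.false_eq_true] at b1 b2
  intro i
  rw [Real.norm_eq_abs, abs_le]
  fin_cases i
  · change -(cM N + 1) ≤ x 0 ∧ x 0 ≤ cM N + 1
    constructor <;> linarith
  · change -(cM N + 1) ≤ x 1 ∧ x 1 ≤ cM N + 1
    constructor <;> linarith
  · change -(cM N + 1) ≤ x 2 ∧ x 2 ≤ cM N + 1
    constructor <;> linarith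

theorem facet_three (N : ℕ) (s t : Bool) (i : Fin N) :
    IsFacet 3 (cP3 N)
      {x | x ∈ cP3 N ∧ ca3 N (.inr (.inl (s, t, i))) ⬝ᵥ x = cb3 N (.inr (.inl (s, t, i)))} := by
  have hb1 := bt_ge N i
  set c : ℝ := 1 - (1 / 2) / (bt N i + 1) with hc
  have hbb : 0 < bt N i + 1 := by linarith
  have hcb : c * (bt N i + 1) = bt N i + 1 - 1 / 2 := by
    rw [hc]
    field_simp
  have hc1 : c < 1 := by
    rw [hc]
    have : 0 < (1 / 2) / (bt N i + 1) := by positivity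
    linarith
  have hc0 : 0 < c := by
    by_contra h
    push Not at h
    nlinarith
  have hss := sg_mul_self s
  have htt := sg_mul_self t
  set z : Fin 3 → ℝ := bv (c * sg s * ((2 * (i : ℕ) + 1) / 2))
    (c * sg s * (cM N - ((i : ℕ) : ℝ) ^ 2 - (i : ℕ))) (c * sg t) with hz
  have hz0 : z 0 = c * sg s * ((2 * (i : ℕ) + 1) / 2) := rfl
  have hz1 : z 1 = c * sg s * (cM N - ((i : ℕ) : ℝ) ^ 2 - (i : ℕ)) := rfl
  have hz2 : z 2 = c * sg t := rfl
  have hzdot : ca3 N (.inr (.inl (s, t, i))) ⬝ᵥ z = cb3 N (.inr (.inl (s, t, i))) := by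
    rw [e3, hz0, hz1, hz2]
    change _ = bt N i + 1 - 1 / 2
    rw [← hcb]
    have e1 : bt N i = (2 * ((i : ℕ) : ℝ) + 1) * (2 * (i : ℕ) + 1) +
        2 * (cM N - ((i : ℕ) : ℝ) ^ 2 - (i : ℕ)) := by
      rw [H_eq]; ring
    rw [e1]
    linear_combination
      (c * ((2 * ((i : ℕ) : ℝ) + 1) * (2 * (i : ℕ) + 1) +
        2 * (cM N - ((i : ℕ) : ℝ) ^ 2 - (i : ℕ)))) * hss + c * htt
  have hsgp : ∀ a b : Bool, sg a * sg b = 1 ∨ sg a * sg b = -1 := by
    intro a b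
    rcases sg_cases a with h | h <;> rcases sg_cases b with h' | h' <;> rw [h, h'] <;> norm_num
  refine facet_of (z := z) rfl ?_ hzdot ?_
  · intro h0
    rw [h0, zero_dotProduct] at hzdot
    have := cb3_pos N (.inr (.inl (s, t, i)))
    linarith
  · intro idx hne
    rcases idx with ⟨s', k⟩ | ⟨s', t', i'⟩ | s'
    · rw [e1, hz0, hz1]
      change _ < cM N + ((k : ℕ) : ℝ) ^ 2
      have := lemA hc0 hc1 (hsgp s' s) (G_pos i.2 (k : ℕ)) (G_le N i k)
      refine lt_of_eq_of_lt ?_ this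
      ring
    · rw [e3, hz0, hz1, hz2]
      change _ < bt N i' + 1 - 1 / 2
      have p1 := lemA hc0 hc1 (hsgp s' s) (H_pos i.2 (i' : ℕ)) (H_le N i i')
      have p2 := lemA (B := 1) hc0 hc1 (hsgp t' t) one_pos le_rfl
      have hb' := bt_ge N i'
      by_cases h1 : s' = s
      · by_cases h2 : t' = t
        · by_cases h3 : i' = i
          · exact absurd (by rw [h1, h2, h3]) hne
          · have p3 := lemA hc0 hc1 (hsgp s' s) (H_pos i.2 (i' : ℕ))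
              (H_le' N fun h => h3 (Fin.ext h))
            nlinarith
        · have p4 := sg_ne h2
          have : c * (sg t' * sg t) * 1 < 0 := by
            rw [p4]
            linarith
          nlinarith
      · have p4 := sg_ne h1
        have : c * (sg s' * sg s) * ((2 * ((i' : ℕ) : ℝ) + 1) * (2 * (i : ℕ) + 1) +
            2 * (cM N - ((i : ℕ) : ℝ) ^ 2 - (i : ℕ))) < 0 := by
          rw [p4]
          have := mul_pos hc0 (H_pos i.2 (i' : ℕ))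
          linarith
        nlinarith
    · rw [e4, hz2]
      change _ < (1 : ℝ)
      have := lemA (B := 1) hc0 hc1 (hsgp s' t) one_pos le_rfl
      refine lt_of_eq_of_lt ?_ this
      ring

theorem facet_coord3 (N : ℕ) (s t : Bool) (i : Fin N) (x : Fin 3 → ℝ)
    (hx : x ∈ cP3 N)
    (hx2 : ca3 N (.inr (.inl (s, t, i))) ⬝ᵥ x = cb3 N (.inr (.inl (s, t, i)))) :
    (2 * ((i : ℕ) : ℝ) + 1 / 2 ≤ sg s * (2 * x 0) ∧
      sg s * (2 * x 0) ≤ 2 * ((i : ℕ) : ℝ) + 3 / 2) ∧ 1 / 2 ≤ sg t * x 2 := by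
  have a1 := hx (.inl (s, i.castSucc))
  have a2 := hx (.inl (s, i.succ))
  have a3 := hx (.inr (.inr t))
  rw [e1] at a1 a2
  rw [e4] at a3
  rw [e3] at hx2
  change _ ≤ cM N + (((i.castSucc : Fin (N + 1)) : ℕ) : ℝ) ^ 2 at a1
  change _ ≤ cM N + (((i.succ : Fin (N + 1)) : ℕ) : ℝ) ^ 2 at a2
  change _ ≤ (1 : ℝ) at a3
  change _ = bt N i + 1 - 1 / 2 at hx2
  rw [Fin.val_castSucc] at a1
  rw [Fin.val_succ] at a2
  push_cast at a2
  unfold bt at hx2
  refine ⟨⟨?_, ?_⟩, ?_⟩ <;> nlinarith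

theorem rep_ge3 (N : ℕ) : 4 * N ≤ repNum 3 (cP3 N) := by
  have h := le_repNum (d := 3) (P := cP3 N) (by omega) (zero_int3 N)
    (facets_finite (a := ca3 N) (b := cb3 N) (by omega) rfl (zero_int3 N))
    (κ := Bool × Bool × Fin N)
    (fun p => {x | x ∈ cP3 N ∧ ca3 N (.inr (.inl p)) ⬝ᵥ x = cb3 N (.inr (.inl p))})
    (fun p => by
      obtain ⟨s, t, i⟩ := p
      exact facet_three N s t i)
    (by
      rintro ⟨s, t, i⟩ ⟨s', t', i'⟩ x ⟨hx, h1⟩ ⟨-, h2⟩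
      have c1 := facet_coord3 N s t i x hx h1
      have c2 := facet_coord3 N s' t' i' x hx h2
      obtain ⟨q1, q2⟩ := coord_inj c1.1.1 c1.1.2 c2.1.1 c2.1.2
      have q3 : t = t' := by
        by_contra hne
        have k1 := c1.2
        have k2 := c2.2
        cases t <;> cases t'
        · exact hne rfl
        · change _ ≤ (-1 : ℝ) * x 2 at k1
          change _ ≤ (1 : ℝ) * x 2 at k2
          linarith
        · change _ ≤ (1 : ℝ) * x 2 at k1
          change _ ≤ (-1 : ℝ) * x 2 at k2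
          linarith
        · exact hne rfl
      rw [q1, q3, Fin.ext q2])
  refine le_trans (le_of_eq ?_) h
  simp only [Fintype.card_prod, Fintype.card_bool, Fintype.card_fin]
  ring

theorem num_le3 (N : ℕ) : facetNum 3 (cP3 N) ≤ 6 * N + 4 := by
  have h := facetNum_le (d := 3) (P := cP3 N) (a := ca3 N) (b := cb3 N) (by omega) rfl
    (zero_int3 N)
  refine h.trans (le_of_eq ?_)
  simp only [Fintype.card_sum, Fintype.card_prod, Fintype.card_bool, Fintype.card_fin]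
  ring

theorem L3_ge : 2 / 3 ≤ L 3 := by
  have hd : 2 ≤ 3 := by omega
  have hub : ∀ r ∈ {r | ∃ P, IsPoly 3 P ∧
      r = (repNum 3 P : ℝ) / facetNum 3 P}, r ≤ 1 := by
    rintro r ⟨P, hP, rfl⟩
    apply div_le_one_of_le₀ _ (Nat.cast_nonneg _)
    exact_mod_cast repNum_le hd hP.2.2.1 (isPoly_finite hd hP)
  have hpoly : ∀ N : ℕ, 1 ≤ N → IsPoly 3 (cP3 N) := fun N hN =>
    isPoly_of (a := ca3 N) (b := cb3 N) rfl (cP3_bdd N hN) (zero_int3 N) (cP3_sym N)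
  by_contra hlt
  push Not at hlt
  set δ := 2 / 3 - L 3 with hδ
  have hδ0 : 0 < δ := by linarith
  obtain ⟨n, hn⟩ := exists_nat_gt (4 / δ)
  set N := n + 1 with hN
  have hNr : 4 < δ * N := by
    rw [div_lt_iff₀ (by positivity)] at hn
    have : (n : ℝ) < N := by
      rw [hN]
      push_cast
      linarith
    nlinarith
  have h1 : (repNum 3 (cP3 N) : ℝ) / facetNum 3 (cP3 N) ≤ L 3 :=
    le_csSup ⟨1, hub⟩ ⟨_, hpoly N (by omega), rfl⟩
  have h2 : (4 * (N : ℝ)) ≤ repNum 3 (cP3 N) := by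
    exact_mod_cast rep_ge3 N
  have h3 : (facetNum 3 (cP3 N) : ℝ) ≤ 6 * (N : ℝ) + 4 := by
    exact_mod_cast num_le3 N
  have h4 : (repNum 3 (cP3 N) : ℝ) ≤ facetNum 3 (cP3 N) := by
    exact_mod_cast repNum_le hd (hpoly N (by omega)).2.2.1 (isPoly_finite hd (hpoly N (by omega)))
  have hN1 : (1 : ℝ) ≤ N := by
    rw [hN]
    push_cast
    have : (0 : ℝ) ≤ n := Nat.cast_nonneg n
    linarith
  have h5 : 0 < (facetNum 3 (cP3 N) : ℝ) := by nlinarith
  rw [div_le_iff₀ h5] at h1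
  have h6 : (repNum 3 (cP3 N) : ℝ) ≤ (2 / 3 - δ) * facetNum 3 (cP3 N) := by
    have : 2 / 3 - δ = L 3 := by rw [hδ]; ring
    rw [this]
    exact h1
  have h7 : δ * (4 * (N : ℝ)) ≤ δ * facetNum 3 (cP3 N) :=
    mul_le_mul_of_nonneg_left (h2.trans h4) hδ0.le
  nlinarith

end

end Pool.Agent.X23.FR
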