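import Mathlib

/-!
# Facets of polytopes and representing sets
-/

set_option autoImplicit false

open Filter Topology

namespace Pool.Agent.X23.FR

/-- `F` is a facet of `P ⊆ ℝ^d`: the intersection of `P` with a supporting hyperplane, of
dimension `d - 1`. -/
def IsFacet (d : ℕ) (P F : Set (Fin d → ℝ)) : Prop :=
  ∃ (l : Fin d → ℝ) (c : ℝ), (∀ x ∈ P, l ⬝ᵥ x ≤ c) ∧ F = {x | x ∈ P ∧ l ⬝ᵥ x = c} ∧
    Module.finrank ℝ (vectorSpan ℝ F) + 1 = d

/-- `P` is a centrally symmetric convex polytope (a bounded intersection of finitely many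
half-spaces, symmetric about some point `o`) with nonempty interior. -/
def IsPoly (d : ℕ) (P : Set (Fin d → ℝ)) : Prop :=
  (∃ H : Finset ((Fin d → ℝ) × ℝ), P = {x | ∀ h ∈ H, h.1 ⬝ᵥ x ≤ h.2}) ∧
    Bornology.IsBounded P ∧ (interior P).Nonempty ∧ ∃ o : Fin d → ℝ, ∀ x ∈ P, (2 : ℝ) • o - x ∈ P

/-- The number of facets. -/
noncomputable def facetNum (d : ℕ) (P : Set (Fin d → ℝ)) : ℕ := Set.ncard {F | IsFacet d P F}

/-- The least size of a finite set of boundary points that meets every facet. -/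
noncomputable def repNum (d : ℕ) (P : Set (Fin d → ℝ)) : ℕ :=
  sInf {k | ∃ K : Finset (Fin d → ℝ), K.card = k ∧ (∀ x ∈ K, x ∈ frontier P) ∧
    ∀ F, IsFacet d P F → ∃ x ∈ K, x ∈ F}

/-- The number `L_d`. -/
noncomputable def L (d : ℕ) : ℝ :=
  sSup {r | ∃ P, IsPoly d P ∧ r = (repNum d P : ℝ) / facetNum d P}

variable {d : ℕ}

/-- the linear functional -/
def phi (a : Fin d → ℝ) : (Fin d → ℝ) →ₗ[ℝ] ℝ where
  toFun x := a ⬝ᵥ x
  map_add' x y := dotProduct_add a x y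
  map_smul' c x := by
    rw [dotProduct_smul]
    rfl

theorem phi_apply (a x : Fin d → ℝ) : phi a x = a ⬝ᵥ x := rfl

theorem phi_ne {a : Fin d → ℝ} (h : a ≠ 0) : phi a ≠ 0 := by
  intro h0
  apply h
  have : a ⬝ᵥ a = 0 := by
    rw [← phi_apply, h0]
    rfl
  exact dotProduct_self_eq_zero.1 this

theorem finrank_ker {a : Fin d → ℝ} (h : a ≠ 0) :
    Module.finrank ℝ (LinearMap.ker (phi a)) + 1 = d := by
  have := Module.Dual.finrank_ker_add_one_of_ne_zero (K := ℝ) (f := phi a) (phi_ne h)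
  rwa [Module.finrank_fin_fun] at this

theorem le_span {F : Set (Fin d → ℝ)} {W : Submodule ℝ (Fin d → ℝ)} {y : Fin d → ℝ} (hy : y ∈ F)
    (h : ∀ v ∈ W, ∃ t : ℝ, 0 < t ∧ y + t • v ∈ F) : W ≤ vectorSpan ℝ F := by
  intro v hv
  obtain ⟨t, ht, hF⟩ := h v hv
  have h1 := vsub_mem_vectorSpan ℝ hF hy
  rw [vsub_eq_sub, add_sub_cancel_left] at h1
  have h2 := (vectorSpan ℝ F).smul_mem t⁻¹ h1
  rwa [smul_smul, inv_mul_cancel₀ ht.ne', one_smul] at h2

theorem span_le {F : Set (Fin d → ℝ)} {a : Fin d → ℝ} {c : ℝ} (h : ∀ x ∈ F, a ⬝ᵥ x = c) :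
    vectorSpan ℝ F ≤ LinearMap.ker (phi a) := by
  rw [vectorSpan_def, Submodule.span_le]
  rintro v ⟨x, hx, y, hy, rfl⟩
  change phi a (x - y) = 0
  rw [map_sub, phi_apply, phi_apply, h x hx, h y hy, sub_self]

section
variable {ι : Type*} [Fintype ι] {a : ι → Fin d → ℝ} {b : ι → ℝ}

theorem small (y v : Fin d → ℝ)
    (h : ∀ i, a i ⬝ᵥ y < b i ∨ (a i ⬝ᵥ v ≤ 0 ∧ a i ⬝ᵥ y ≤ b i)) :
    ∃ t : ℝ, 0 < t ∧ ∀ i, a i ⬝ᵥ (y + t • v) ≤ b i := by
  have h1 : ∀ᶠ t : ℝ in 𝓝[>] 0, ∀ i, a i ⬝ᵥ (y + t • v) ≤ b i := by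
    rw [eventually_all]
    intro i
    have e : ∀ t : ℝ, a i ⬝ᵥ (y + t • v) = a i ⬝ᵥ y + t * (a i ⬝ᵥ v) := by
      intro t
      rw [dotProduct_add, dotProduct_smul, smul_eq_mul]
    simp only [e]
    rcases h i with h2 | ⟨h2, h3⟩
    · have hc : ContinuousAt (fun t : ℝ => a i ⬝ᵥ y + t * (a i ⬝ᵥ v)) 0 := by fun_prop
      have h4 : (fun t : ℝ => a i ⬝ᵥ y + t * (a i ⬝ᵥ v)) 0 < b i := by
        simpa using h2
      have h5 := hc.eventually_lt_const h4
      exact (h5.filter_mono nhdsWithin_le_nhds).mono fun t ht => ht.le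
    · filter_upwards [self_mem_nhdsWithin] with t ht
      have ht' : (0 : ℝ) < t := ht
      nlinarith
  obtain ⟨t, ht, ht2⟩ := (h1.and self_mem_nhdsWithin).exists
  exact ⟨t, ht2, ht⟩

theorem interior_of {y : Fin d → ℝ} (h : ∀ i, a i ⬝ᵥ y < b i) :
    y ∈ interior {x | ∀ i, a i ⬝ᵥ x ≤ b i} := by
  rw [mem_interior_iff_mem_nhds]
  change ∀ᶠ x in 𝓝 y, ∀ i, a i ⬝ᵥ x ≤ b i
  rw [eventually_all]
  intro i
  have hc : ContinuousAt (fun x => phi (a i) x) y :=
    (LinearMap.continuous_of_finiteDimensional (phi (a i))).continuousAt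
  exact (hc.eventually_lt_const (h i)).mono fun x hx => hx.le

theorem facet_ne {P F : Set (Fin d → ℝ)} (hd : 2 ≤ d)
    (hF : Module.finrank ℝ (vectorSpan ℝ F) + 1 = d) : F.Nonempty := by
  by_contra hne
  rw [Set.not_nonempty_iff_eq_empty] at hne
  rw [hne, vectorSpan_empty, finrank_bot] at hF
  omega

theorem push {P : Set (Fin d → ℝ)} {y : Fin d → ℝ} (hy : y ∈ interior P) (v : Fin d → ℝ) :
    ∃ t : ℝ, 0 < t ∧ y + t • v ∈ P := by
  have h1 : ∀ᶠ t : ℝ in 𝓝 0, y + t • v ∈ P := by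
    have hc : ContinuousAt (fun t : ℝ => y + t • v) 0 := by fun_prop
    apply hc.eventually
    simpa using mem_interior_iff_mem_nhds.1 hy
  have h2 := (h1.filter_mono (nhdsWithin_le_nhds (s := Set.Ioi 0))).and
    (self_mem_nhdsWithin (s := Set.Ioi (0 : ℝ)))
  obtain ⟨t, ht, ht2⟩ := h2.exists
  exact ⟨t, ht2, ht⟩

theorem l_ne {P F : Set (Fin d → ℝ)} (hd : 2 ≤ d) (hP : (interior P).Nonempty) {l : Fin d → ℝ}
    {c : ℝ} (hF : F = {x | x ∈ P ∧ l ⬝ᵥ x = c})
    (hdim : Module.finrank ℝ (vectorSpan ℝ F) + 1 = d) : l ≠ 0 := by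
  intro hl
  obtain ⟨x, hx⟩ := facet_ne (P := P) hd hdim
  have hx' := hx
  rw [hF] at hx'
  have hc : c = 0 := by
    rw [← hx'.2, hl, zero_dotProduct]
  have hFP : F = P := by
    rw [hF]
    ext y
    simp [hl, hc]
  obtain ⟨y, hy⟩ := hP
  have h1 : (⊤ : Submodule ℝ (Fin d → ℝ)) ≤ vectorSpan ℝ F := by
    apply le_span (y := y)
    · rw [hFP]
      exact interior_subset hy
    · intro v _
      rw [hFP]
      exact push hy v
  rw [top_le_iff.1 h1, finrank_top, Module.finrank_fin_fun] at hdim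
  omega

theorem facet_frontier {P F : Set (Fin d → ℝ)} (hd : 2 ≤ d) (hP : (interior P).Nonempty)
    (hF : IsFacet d P F) {x : Fin d → ℝ} (hx : x ∈ F) : x ∈ frontier P := by
  obtain ⟨l, c, h1, h2, h3⟩ := hF
  have hl := l_ne hd hP h2 h3
  rw [h2] at hx
  refine ⟨subset_closure hx.1, fun hint => ?_⟩
  obtain ⟨t, ht, ht2⟩ := push hint l
  have h4 := h1 _ ht2
  rw [dotProduct_add, dotProduct_smul, hx.2, smul_eq_mul] at h4
  have h5 : 0 < l ⬝ᵥ l := by
    have h6 : l ⬝ᵥ l ≠ 0 := fun h => hl (dotProduct_self_eq_zero.1 h)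
    have h7 : 0 ≤ l ⬝ᵥ l := by
      unfold dotProduct
      exact Finset.sum_nonneg fun i _ => mul_self_nonneg _
    exact lt_of_le_of_ne h7 h6.symm
  nlinarith [mul_pos ht h5]

theorem facet_eq {P F : Set (Fin d → ℝ)} (hd : 2 ≤ d) (hPdef : P = {x | ∀ i, a i ⬝ᵥ x ≤ b i})
    (hP : (interior P).Nonempty) (hF : IsFacet d P F) :
    ∃ i, F = {x | x ∈ P ∧ a i ⬝ᵥ x = b i} := by
  classical
  obtain ⟨l, c, h1, h2, h3⟩ := hF
  have hl := l_ne hd hP h2 h3
  obtain ⟨x0, hx0⟩ := facet_ne (P := P) hd h3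
  have hFP : ∀ x ∈ F, x ∈ P := fun x hx => by rw [h2] at hx; exact hx.1
  have key : ∃ i, a i ≠ 0 ∧ ∀ x ∈ F, a i ⬝ᵥ x = b i := by
    by_contra hcon
    push Not at hcon
    have hch : ∀ i, ∃ x ∈ F, a i ≠ 0 → a i ⬝ᵥ x < b i := by
      intro i
      by_cases hi : a i = 0
      · exact ⟨x0, hx0, fun h => absurd hi h⟩
      · obtain ⟨x, hx, hne⟩ := hcon i hi
        refine ⟨x, hx, fun _ => lt_of_le_of_ne ?_ hne⟩
        have := hFP x hx
        rw [hPdef] at this
        exact this i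
    choose X hX hXs using hch
    set Y : Option ι → Fin d → ℝ := fun o => o.elim x0 X with hY
    have hYF : ∀ o, Y o ∈ F := by
      intro o
      cases o with
      | none => exact hx0
      | some i => exact hX i
    set w : ℝ := ((Fintype.card (Option ι) : ℝ))⁻¹ with hw
    have hcard : (0 : ℝ) < Fintype.card (Option ι) := by
      have : 0 < Fintype.card (Option ι) := Fintype.card_pos
      exact_mod_cast this
    have hw0 : 0 < w := by positivity
    set y : Fin d → ℝ := ∑ o, w • Y o with hy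
    have hdot : ∀ v : Fin d → ℝ, v ⬝ᵥ y = ∑ o, w * (v ⬝ᵥ Y o) := by
      intro v
      rw [hy, ← phi_apply, map_sum]
      refine Finset.sum_congr rfl fun o _ => ?_
      rw [map_smul, phi_apply, smul_eq_mul]
    have hsum : ∀ r : ℝ, ∑ _o : Option ι, w * r = r := by
      intro r
      rw [Finset.sum_const, Finset.card_univ, nsmul_eq_mul, ← mul_assoc, hw,
        mul_inv_cancel₀ hcard.ne', one_mul]
    have hly : l ⬝ᵥ y = c := by
      rw [hdot, ← hsum c]
      refine Finset.sum_congr rfl fun o _ => ?_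
      have := hYF o
      rw [h2] at this
      rw [this.2]
    have hYP : ∀ o i, a i ⬝ᵥ Y o ≤ b i := by
      intro o i
      have := hFP _ (hYF o)
      rw [hPdef] at this
      exact this i
    have hlt : ∀ i, a i ≠ 0 → a i ⬝ᵥ y < b i := by
      intro i hi
      rw [hdot, ← hsum (b i)]
      apply Finset.sum_lt_sum
      · intro o _
        exact mul_le_mul_of_nonneg_left (hYP o i) hw0.le
      · refine ⟨some i, Finset.mem_univ _, ?_⟩
        exact mul_lt_mul_of_pos_left (hXs i hi) hw0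
    have hle : ∀ i, a i ⬝ᵥ y ≤ b i := by
      intro i
      rw [hdot, ← hsum (b i)]
      exact Finset.sum_le_sum fun o _ => mul_le_mul_of_nonneg_left (hYP o i) hw0.le
    obtain ⟨t, ht, ht2⟩ := small (a := a) (b := b) y l (by
      intro i
      by_cases hi : a i = 0
      · right
        refine ⟨?_, hle i⟩
        rw [hi, zero_dotProduct]
      · exact Or.inl (hlt i hi))
    have h4 := h1 (y + t • l) (by rw [hPdef]; exact ht2)
    rw [dotProduct_add, dotProduct_smul, hly, smul_eq_mul] at h4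
    have h5 : 0 < l ⬝ᵥ l := by
      have h6 : l ⬝ᵥ l ≠ 0 := fun h => hl (dotProduct_self_eq_zero.1 h)
      have h7 : 0 ≤ l ⬝ᵥ l := by
        unfold dotProduct
        exact Finset.sum_nonneg fun i _ => mul_self_nonneg _
      exact lt_of_le_of_ne h7 h6.symm
    nlinarith [mul_pos ht h5]
  obtain ⟨i, hi, hiF⟩ := key
  refine ⟨i, ?_⟩
  have hspan : vectorSpan ℝ F = LinearMap.ker (phi (a i)) := by
    apply Submodule.eq_of_le_of_finrank_eq (span_le hiF)
    have := finrank_ker hi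
    omega
  ext x
  constructor
  · intro hx
    exact ⟨hFP x hx, hiF x hx⟩
  · rintro ⟨hx1, hx2⟩
    have h4 : x - x0 ∈ LinearMap.ker (phi (a i)) := by
      change phi (a i) (x - x0) = 0
      rw [map_sub, phi_apply, phi_apply, hx2, hiF x0 hx0, sub_self]
    rw [← hspan] at h4
    have h5 : ∀ z ∈ F, l ⬝ᵥ z = c := by
      intro z hz
      rw [h2] at hz
      exact hz.2
    have h6 := span_le h5 h4
    have h7 : phi l (x - x0) = 0 := h6
    rw [map_sub, phi_apply, phi_apply, h5 x0 hx0, sub_eq_zero] at h7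
    rw [h2]
    exact ⟨hx1, h7⟩

theorem facet_of {P : Set (Fin d → ℝ)} (hPdef : P = {x | ∀ i, a i ⬝ᵥ x ≤ b i}) {i : ι}
    {z : Fin d → ℝ} (hi : a i ≠ 0) (hz : a i ⬝ᵥ z = b i) (hz2 : ∀ j, j ≠ i → a j ⬝ᵥ z < b j) :
    IsFacet d P {x | x ∈ P ∧ a i ⬝ᵥ x = b i} := by
  refine ⟨a i, b i, fun x hx => by rw [hPdef] at hx; exact hx i, rfl, ?_⟩
  have hspan : vectorSpan ℝ {x | x ∈ P ∧ a i ⬝ᵥ x = b i} = LinearMap.ker (phi (a i)) := by
    apply le_antisymm
    · exact span_le fun x hx => hx.2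
    · apply le_span (y := z)
      · refine ⟨?_, hz⟩
        rw [hPdef]
        intro j
        by_cases hj : j = i
        · rw [hj, hz]
        · exact (hz2 j hj).le
      · intro v hv
        have hv' : a i ⬝ᵥ v = 0 := hv
        obtain ⟨t, ht, ht2⟩ := small (a := a) (b := b) z v (by
          intro j
          by_cases hj : j = i
          · right
            rw [hj, hv', hz]
            exact ⟨le_rfl, le_rfl⟩
          · exact Or.inl (hz2 j hj))
        refine ⟨t, ht, by rw [hPdef]; exact ht2, ?_⟩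
        rw [dotProduct_add, dotProduct_smul, hv', hz, smul_zero, add_zero]
  rw [hspan]
  exact finrank_ker hi

theorem facets_sub {P : Set (Fin d → ℝ)} (hd : 2 ≤ d) (hPdef : P = {x | ∀ i, a i ⬝ᵥ x ≤ b i})
    (hP : (interior P).Nonempty) :
    {F | IsFacet d P F} ⊆ Set.range fun i => {x | x ∈ P ∧ a i ⬝ᵥ x = b i} := by
  intro F hF
  obtain ⟨i, hi⟩ := facet_eq hd hPdef hP hF
  exact ⟨i, hi.symm⟩

theorem facets_finite {P : Set (Fin d → ℝ)} (hd : 2 ≤ d)
    (hPdef : P = {x | ∀ i, a i ⬝ᵥ x ≤ b i}) (hP : (interior P).Nonempty) :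
    {F | IsFacet d P F}.Finite :=
  (Set.finite_range _).subset (facets_sub hd hPdef hP)

theorem facetNum_le {P : Set (Fin d → ℝ)} (hd : 2 ≤ d)
    (hPdef : P = {x | ∀ i, a i ⬝ᵥ x ≤ b i}) (hP : (interior P).Nonempty) :
    facetNum d P ≤ Fintype.card ι := by
  classical
  unfold facetNum
  refine (Set.ncard_le_ncard (facets_sub hd hPdef hP) (Set.finite_range _)).trans ?_
  rw [← Set.image_univ]
  refine (Set.ncard_image_le Set.finite_univ).trans ?_
  rw [Set.ncard_univ, Nat.card_eq_fintype_card]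

end

theorem rep_set {P : Set (Fin d → ℝ)} (hd : 2 ≤ d) (hP : (interior P).Nonempty)
    (hfin : {F | IsFacet d P F}.Finite) :
    ∃ K : Finset (Fin d → ℝ), K.card ≤ facetNum d P ∧ (∀ x ∈ K, x ∈ frontier P) ∧
      ∀ F, IsFacet d P F → ∃ x ∈ K, x ∈ F := by
  classical
  have hch : ∀ F : Set (Fin d → ℝ), ∃ x, IsFacet d P F → x ∈ F := by
    intro F
    by_cases h : IsFacet d P F
    · obtain ⟨l, c, h1, h2, h3⟩ := h
      obtain ⟨x, hx⟩ := facet_ne (P := P) hd h3
      exact ⟨x, fun _ => hx⟩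
    · exact ⟨0, fun h' => absurd h' h⟩
  choose X hX using hch
  refine ⟨hfin.toFinset.image X, ?_, ?_, ?_⟩
  · refine Finset.card_image_le.trans ?_
    unfold facetNum
    rw [Set.ncard_eq_toFinset_card _ hfin]
  · intro x hx
    obtain ⟨F, hF, rfl⟩ := Finset.mem_image.1 hx
    have hF' : IsFacet d P F := hfin.mem_toFinset.1 hF
    exact facet_frontier hd hP hF' (hX F hF')
  · intro F hF
    exact ⟨X F, Finset.mem_image_of_mem _ (hfin.mem_toFinset.2 hF), hX F hF⟩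

theorem repNum_le {P : Set (Fin d → ℝ)} (hd : 2 ≤ d) (hP : (interior P).Nonempty)
    (hfin : {F | IsFacet d P F}.Finite) : repNum d P ≤ facetNum d P := by
  obtain ⟨K, h1, h2, h3⟩ := rep_set hd hP hfin
  unfold repNum
  refine le_trans (Nat.sInf_le ?_) h1
  exact ⟨K, rfl, h2, h3⟩

theorem le_repNum {P : Set (Fin d → ℝ)} (hd : 2 ≤ d) (hP : (interior P).Nonempty)
    (hfin : {F | IsFacet d P F}.Finite) {κ : Type*} [Fintype κ] (F : κ → Set (Fin d → ℝ))
    (hF : ∀ i, IsFacet d P (F i)) (hdis : ∀ i j x, x ∈ F i → x ∈ F j → i = j) :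
    Fintype.card κ ≤ repNum d P := by
  classical
  have hne : {k | ∃ K : Finset (Fin d → ℝ), K.card = k ∧ (∀ x ∈ K, x ∈ frontier P) ∧
    ∀ F, IsFacet d P F → ∃ x ∈ K, x ∈ F}.Nonempty := by
    obtain ⟨K, h1, h2, h3⟩ := rep_set hd hP hfin
    exact ⟨_, K, rfl, h2, h3⟩
  obtain ⟨K, hK, -, hK2⟩ := Nat.sInf_mem hne
  unfold repNum
  rw [← hK]
  have hch : ∀ i, ∃ x ∈ K, x ∈ F i := fun i => hK2 _ (hF i)
  choose X hXK hXF using hch
  rw [← Finset.card_univ]
  apply Finset.card_le_card_of_injOn X (fun i _ => hXK i)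
  intro i _ j _ hij
  exact hdis i j (X i) (hXF i) (by rw [hij]; exact hXF j)

theorem isPoly_finite {P : Set (Fin d → ℝ)} (hd : 2 ≤ d) (hP : IsPoly d P) :
    {F | IsFacet d P F}.Finite := by
  obtain ⟨⟨H, hH⟩, -, hint, -⟩ := hP
  apply facets_finite (ι := {h // h ∈ H}) (a := fun h => h.1.1) (b := fun h => h.1.2) hd _ hint
  rw [hH]
  ext x
  constructor
  · intro hx h
    exact hx h.1 h.2
  · intro hx h hh
    exact hx ⟨h, hh⟩

theorem isPoly_of {ι : Type*} [Fintype ι] {a : ι → Fin d → ℝ} {b : ι → ℝ}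
    {P : Set (Fin d → ℝ)} (hPdef : P = {x | ∀ i, a i ⬝ᵥ x ≤ b i}) (hbd : Bornology.IsBounded P)
    (hint : (interior P).Nonempty) (hsym : ∀ x ∈ P, -x ∈ P) : IsPoly d P := by
  classical
  refine ⟨⟨Finset.univ.image fun i => (a i, b i), ?_⟩, hbd, hint, 0, fun x hx => by
    rw [smul_zero, zero_sub]
    exact hsym x hx⟩
  rw [hPdef]
  ext x
  constructor
  · intro hx h hh
    obtain ⟨i, -, rfl⟩ := Finset.mem_image.1 hh
    exact hx i
  · intro hx i
    exact hx _ (Finset.mem_image_of_mem _ (Finset.mem_univ i))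

end Pool.Agent.X23.FR
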